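import Pool.Agent.Q32.LR2.Stm

/-!
# Project LR2: the coboundary under complement and submodularity
-/

set_option autoImplicit false

namespace Q224.LR2

open Q32.LR2

theorem cob_compl {V : Type} (X : SimpleGraph V) (U : Set V) :
    cob X Uᶜ = Prod.swap '' cob X U := by
  ext ⟨a, b⟩
  constructor
  · rintro ⟨h1, h2, h3⟩
    refine ⟨(b, a), ⟨h1.symm, ?_, h2⟩, rfl⟩
    simpa using h3
  · rintro ⟨⟨c, d⟩, ⟨h1, h2, h3⟩, h4⟩
    simp only [Prod.swap_prod_mk, Prod.mk.injEq] at h4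
    obtain ⟨rfl, rfl⟩ := h4
    exact ⟨h1.symm, h3, fun h => h h2⟩

theorem co : S_CO := by
  intro V X
  have hc : ∀ U, (cob X U).Finite → (cob X Uᶜ).Finite ∧ (cob X Uᶜ).ncard = (cob X U).ncard := by
    intro U hU
    rw [cob_compl]
    exact ⟨hU.image _, Set.ncard_image_of_injective _ Prod.swap_injective⟩
  refine ⟨hc, ?_⟩
  intro U W hU hW
  have hA : cob X (U ∩ W) ∪ cob X (U ∪ W) ⊆ cob X U ∪ cob X W := by
    rintro ⟨a, b⟩ (⟨h1, h2, h3⟩ | ⟨h1, h2, h3⟩)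
    · by_cases hb : b ∈ U
      · right
        exact ⟨h1, h2.2, fun h => h3 ⟨hb, h⟩⟩
      · left
        exact ⟨h1, h2.1, hb⟩
    · rcases h2 with h2 | h2
      · left
        exact ⟨h1, h2, fun h => h3 (Or.inl h)⟩
      · right
        exact ⟨h1, h2, fun h => h3 (Or.inr h)⟩
  have hB : cob X (U ∩ W) ∩ cob X (U ∪ W) ⊆ cob X U ∩ cob X W := by
    rintro ⟨a, b⟩ ⟨⟨h1, h2, _⟩, ⟨_, _, h6⟩⟩
    exact ⟨⟨h1, h2.1, fun h => h6 (Or.inl h)⟩, ⟨h1, h2.2, fun h => h6 (Or.inr h)⟩⟩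
  have hAB : (cob X U ∪ cob X W).Finite := hU.union hW
  have h1 : (cob X (U ∩ W)).Finite := hAB.subset (Set.subset_union_left.trans hA)
  have h2 : (cob X (U ∪ W)).Finite := hAB.subset (Set.subset_union_right.trans hA)
  have e : Uᶜ ∩ Wᶜ = (U ∪ W)ᶜ := (Set.compl_union U W).symm
  rw [e]
  refine ⟨h1, (hc _ h2).1, ?_⟩
  rw [(hc _ h2).2]
  have e1 := Set.ncard_union_add_ncard_inter (cob X (U ∩ W)) (cob X (U ∪ W)) h1 h2
  have e2 := Set.ncard_union_add_ncard_inter (cob X U) (cob X W) hU hW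
  have e3 := Set.ncard_le_ncard hA hAB
  have e4 := Set.ncard_le_ncard hB (hU.subset Set.inter_subset_left)
  omega

end Q224.LR2
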