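import Pool.Agent.Q32.LR2.Stm

/-!
# Project LR2: finitely many thin cuts of bounded size cross a given cut
-/

set_option autoImplicit false

namespace Q224.LR2

open Q32.LR2

theorem cn_edge {V : Type} {X : SimpleGraph V} {U Z : Set V} (h : Cn X Z) (h1 : (U ∩ Z).Nonempty)
    (h2 : (Uᶜ ∩ Z).Nonempty) : ∃ p ∈ cob X U, p.1 ∈ Z := by
  by_contra hc
  push Not at hc
  have e := h (U ∩ Z) Set.inter_subset_right h1 (by
    intro a ha b hb hab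
    refine ⟨?_, hb⟩
    by_contra hbU
    exact hc (a, b) ⟨hab, ha.1, hbU⟩ ha.2)
  obtain ⟨x, hx1, hx2⟩ := h2
  rw [← e] at hx2
  exact hx1 hx2.1

theorem crf : S_CRF := by
  intro FT V X hX U hU n
  have hF : (Prod.fst '' cob X U).Finite := hU.image _
  refine Set.Finite.subset (Set.Finite.biUnion hF fun a _ => Set.Finite.biUnion hF fun b _ =>
    FT V n X a b (hX.preconnected a b)) ?_
  rintro Z ⟨h1, h2, h3, h4⟩
  unfold Nst at h4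
  simp only [not_or, Set.not_subset] at h4
  obtain ⟨⟨a, ha1, ha2⟩, ⟨b, hb1, hb2⟩, ⟨c, hc1, hc2⟩, ⟨d, hd1, hd2⟩⟩ := h4
  obtain ⟨p, hp1, hp2⟩ := cn_edge (U := U) h1.1 ⟨b, hb1, not_not.1 hb2⟩ ⟨d, hd1, not_not.1 hd2⟩
  obtain ⟨q, hq1, hq2⟩ := cn_edge (U := U) h1.2 ⟨a, ha1, ha2⟩ ⟨c, hc1, hc2⟩
  simp only [Set.mem_iUnion]
  exact ⟨p.1, ⟨p, hp1, rfl⟩, q.1, ⟨q, hq1, rfl⟩, hp2, hq2, h1, h2, h3⟩

end Q224.LR2
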