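import Pool.Agent.Q32.LR2.Stm

/-!
# Project LR2: finitely many thin cuts separate two vertices
-/

set_option autoImplicit false

namespace Q224.LR2

open Q32.LR2

theorem cn_del {V : Type} {X : SimpleGraph V} {U : Set V} {x y : V} (hxy : ¬ (x ∈ U ∧ y ∈ U))
    (h : Cn X U) : Cn (X.deleteEdges {s(x, y)}) U := by
  intro W hW hne hcl
  refine h W hW hne ?_
  intro a ha b hb hab
  refine hcl a ha b hb ?_
  rw [SimpleGraph.deleteEdges_adj]
  refine ⟨hab, ?_⟩
  intro hs
  rw [Set.mem_singleton_iff, Sym2.eq_iff] at hs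
  rcases hs with ⟨rfl, rfl⟩ | ⟨rfl, rfl⟩
  · exact hxy ⟨hW ha, hb⟩
  · exact hxy ⟨hb, hW ha⟩

theorem cob_del {V : Type} {X : SimpleGraph V} {U : Set V} {x y : V} (hy : y ∉ U) :
    cob (X.deleteEdges {s(x, y)}) U = cob X U \ {(x, y)} := by
  ext ⟨a, b⟩
  constructor
  · rintro ⟨h1, h2, h3⟩
    rw [SimpleGraph.deleteEdges_adj] at h1
    refine ⟨⟨h1.1, h2, h3⟩, ?_⟩
    intro he
    rw [Set.mem_singleton_iff, Prod.mk.injEq] at he
    obtain ⟨rfl, rfl⟩ := he
    exact h1.2 rfl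
  · rintro ⟨⟨h1, h2, h3⟩, h4⟩
    refine ⟨?_, h2, h3⟩
    rw [SimpleGraph.deleteEdges_adj]
    refine ⟨h1, ?_⟩
    intro hs
    rw [Set.mem_singleton_iff, Sym2.eq_iff] at hs
    rcases hs with ⟨rfl, rfl⟩ | ⟨rfl, rfl⟩
    · exact h4 rfl
    · exact hy h2

theorem reach_of_adj {V : Type} (X : SimpleGraph V) (n : ℕ)
    (h : ∀ x y : V, X.Adj x y →
      {U : Set V | x ∈ U ∧ y ∉ U ∧ Thin X U ∧ (cob X U).Finite ∧ (cob X U).ncard ≤ n}.Finite)
    (a b : V) (hab : X.Reachable a b) :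
    {U : Set V | a ∈ U ∧ b ∉ U ∧ Thin X U ∧ (cob X U).Finite ∧ (cob X U).ncard ≤ n}.Finite := by
  obtain ⟨p⟩ := hab
  induction p with
  | nil =>
    refine Set.Finite.subset Set.finite_empty ?_
    rintro U ⟨h1, h2, _⟩
    exact absurd h1 h2
  | @cons u v w huv p ih =>
    refine Set.Finite.subset ((h u v huv).union ih) ?_
    rintro U ⟨h1, h2, h3⟩
    by_cases hv : v ∈ U
    · exact Or.inr ⟨hv, h2, h3⟩
    · exact Or.inl ⟨h1, hv, h3⟩

theorem ft_adj {V : Type} (n : ℕ) : ∀ (X : SimpleGraph V) (x y : V), X.Adj x y →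
    {U : Set V | x ∈ U ∧ y ∉ U ∧ Thin X U ∧ (cob X U).Finite ∧ (cob X U).ncard ≤ n}.Finite := by
  induction n with
  | zero =>
    intro X x y hxy
    refine Set.Finite.subset Set.finite_empty ?_
    rintro U ⟨h1, h2, _, h4, h5⟩
    have h6 : cob X U = ∅ := (Set.ncard_eq_zero h4).1 (Nat.le_zero.1 h5)
    have h7 : (x, y) ∈ cob X U := ⟨hxy, h1, h2⟩
    rw [h6] at h7
    exact h7
  | succ n ih =>
    intro X x y hxy
    by_cases hr : (X.deleteEdges {s(x, y)}).Reachable x y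
    · refine Set.Finite.subset
        (reach_of_adj (X.deleteEdges {s(x, y)}) n (ih _) x y hr) ?_
      rintro U ⟨h1, h2, h3, h4, h5⟩
      refine ⟨h1, h2, ⟨cn_del (fun h => h2 h.2) h3.1, cn_del (fun h => h.1 h1) h3.2⟩, ?_, ?_⟩
      · rw [cob_del h2]
        exact h4.subset Set.sdiff_subset
      · rw [cob_del h2, Set.ncard_sdiff_singleton_of_mem (show (x, y) ∈ cob X U from ⟨hxy, h1, h2⟩)]
        omega
    · refine Set.Finite.subset
        (Set.finite_singleton {v | (X.deleteEdges {s(x, y)}).Reachable x v}) ?_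
      rintro U ⟨h1, h2, h3, h4, h5⟩
      rw [Set.mem_singleton_iff]
      have c1 : Cn (X.deleteEdges {s(x, y)}) U := cn_del (fun h => h2 h.2) h3.1
      have c2 : Cn (X.deleteEdges {s(x, y)}) Uᶜ := cn_del (fun h => h.1 h1) h3.2
      have e1 := c1 (U ∩ {v | (X.deleteEdges {s(x, y)}).Reachable x v}) Set.inter_subset_left
        ⟨x, h1, SimpleGraph.Reachable.refl x⟩
        (fun a ha b hb hab => ⟨hb, (show (X.deleteEdges {s(x, y)}).Reachable x a from ha.2).trans
          hab.reachable⟩)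
      apply Set.Subset.antisymm
      · intro v hv
        rw [← e1] at hv
        exact hv.2
      · intro v hv
        by_contra hv2
        have e2 := c2 (Uᶜ ∩ {v | (X.deleteEdges {s(x, y)}).Reachable x v}) Set.inter_subset_left
          ⟨v, hv2, hv⟩
          (fun a ha b hb hab => ⟨hb, (show (X.deleteEdges {s(x, y)}).Reachable x a from ha.2).trans
            hab.reachable⟩)
        have h6 : y ∈ Uᶜ := h2
        rw [← e2] at h6
        exact hr h6.2

theorem ft : S_FT := by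
  intro V n X a b hab
  exact reach_of_adj X n (ft_adj n X) a b hab

end Q224.LR2
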