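import Pool.Agent.Q32.LR2.Stm

/-!
# Project LR2: the last step of part 1
-/

set_option autoImplicit false

namespace Q224.LR2

open Q32.LR2 Pool.Agent.TH97.VR

theorem nest0 : S_NEST0 := by
  intro FT MT CO GOOD NL STA STB CRF INV V X hX P n0
  have hG : Good X P (n0 + 1) (Cum X P (n0 + 1)) :=
    GOOD CO NL STA STB MT CRF FT V X hX P (n0 + 1)
  have hth : ∀ U ∈ Cum X P (n0 + 1), Thin X U ∧ U.Nonempty ∧ Uᶜ.Nonempty ∧ (cob X U).Nonempty ∧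
      (cob X U).Finite ∧ (cob X U).ncard ≤ n0 := by
    intro U hU
    obtain ⟨m, hm, hmc⟩ := hG.mc U hU
    obtain ⟨h1, h2, h3, h4⟩ := MT CO V X hX P m U hmc
    refine ⟨h1, h2, h3, h4, hmc.1, ?_⟩
    rw [hmc.2.1]
    omega
  refine ⟨Cum X P (n0 + 1), ?_, hG.nst, ?_, ?_, ?_⟩
  · refine ⟨hG.compl, fun h hh => (hth h hh).2.1, ?_⟩
    intro a b
    refine (FT V n0 X a b (hX.preconnected a b)).subset ?_
    rintro U ⟨h1, h2, h3⟩
    obtain ⟨t1, _, _, _, t2, t3⟩ := hth U h1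
    exact ⟨h2, h3, t1, t2, t3⟩
  · intro U hU
    obtain ⟨_, _, _, t1, t2, _⟩ := hth U hU
    exact ⟨t2, t1⟩
  · intro p hp q hq W h1 h2 h3
    exact hG.sep p hp q hq ⟨W, h3, h1, Nat.lt_succ_of_le h2⟩
  · intro σ h1 h2 h3 U hU
    exact INV V X P σ h1 h2 h3 (n0 + 1) U hU

end Q224.LR2
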