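import Pool.Agent.Q32.LR2.Stm

/-!
# Project LR2: elementary facts on nested sets
-/

set_option autoImplicit false

namespace Q224.LR2

open Q32.LR2

theorem nst_iff {V : Type} (U W : Set V) : Nst U W ↔
    (∀ x, x ∈ U → x ∈ W) ∨ (∀ x, x ∈ U → x ∉ W) ∨ (∀ x, x ∉ U → x ∈ W) ∨ (∀ x, x ∉ U → x ∉ W) :=
  Iff.rfl

theorem nst_symm {V : Type} {U W : Set V} (h : Nst U W) : Nst W U := by
  rw [nst_iff] at *
  rcases h with h | h | h | h
  · exact Or.inr (Or.inr (Or.inr fun x hx hu => hx (h x hu)))
  · exact Or.inr (Or.inl fun x hx hu => h x hu hx)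
  · exact Or.inr (Or.inr (Or.inl fun x hx => by
      by_contra hu
      exact hx (h x hu)))
  · exact Or.inl fun x hx => by
      by_contra hu
      exact h x hu hx

theorem nst_compl {V : Type} {U W : Set V} (h : Nst U W) : Nst Uᶜ W := by
  unfold Nst at *
  rw [compl_compl]
  tauto

theorem nst_compl' {V : Type} {U W : Set V} (h : Nst U W) : Nst U Wᶜ := by
  unfold Nst at *
  rw [compl_compl]
  tauto

theorem nst_or {V : Type} {U W Z : Set V} (h : Nst W Z) :
    Nst (U ∩ W) Z ∨ Nst (Uᶜ ∩ Wᶜ) Z := by
  unfold Nst at *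
  rcases h with h | h | h | h
  · exact Or.inl (Or.inl (Set.inter_subset_right.trans h))
  · exact Or.inl (Or.inr (Or.inl (Set.inter_subset_right.trans h)))
  · exact Or.inr (Or.inl (Set.inter_subset_right.trans h))
  · exact Or.inr (Or.inr (Or.inl (Set.inter_subset_right.trans h)))

theorem nl : S_NL := by
  intro V U W Z
  refine ⟨nst_symm, nst_compl, nst_compl', ?_, ?_, nst_or, ?_⟩
  · refine ⟨Or.inl Set.inter_subset_left, Or.inl Set.inter_subset_right,
      Or.inr (Or.inl Set.inter_subset_left), Or.inr (Or.inl Set.inter_subset_right)⟩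
  · intro h1 h2 h3
    rw [nst_iff] at *
    rw [nst_iff]
    simp only [Set.mem_inter_iff, Set.mem_compl_iff]
    simp only [not_or] at h1
    obtain ⟨n1, n2, n3, n4⟩ := h1
    rcases h2 with h2 | h2 | h2 | h2 <;> rcases h3 with h3 | h3 | h3 | h3
    all_goals first
      | (refine ⟨?_, ?_⟩ <;> first
          | exact Or.inl (by intro x hx; have a2 := h2 x; have a3 := h3 x; tauto)
          | exact Or.inr (Or.inl (by intro x hx; have a2 := h2 x; have a3 := h3 x; tauto))
          | exact Or.inr (Or.inr (Or.inl (by intro x hx; have a2 := h2 x; have a3 := h3 x; tauto)))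
          | exact Or.inr (Or.inr (Or.inr (by intro x hx; have a2 := h2 x; have a3 := h3 x; tauto))))
      | (exfalso; apply n1; intro x hx; by_contra hc; have a2 := h2 x; have a3 := h3 x; tauto)
      | (exfalso; apply n2; intro x hx; by_contra hc; have a2 := h2 x; have a3 := h3 x; tauto)
      | (exfalso; apply n3; intro x hx; by_contra hc; have a2 := h2 x; have a3 := h3 x; tauto)
      | (exfalso; apply n4; intro x hx; by_contra hc; have a2 := h2 x; have a3 := h3 x; tauto)
  · intro h
    have h2 := nst_or (U := W) h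
    rw [Set.inter_comm W U, Set.inter_comm Wᶜ Uᶜ] at h2
    exact h2

end Q224.LR2
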