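import Pool.Agent.Q32.LR2.Stm

/-!
# Project LR2: pull back of virtual retractions
-/

set_option autoImplicit false

namespace Q224.LR2

open Q32.LR2 Pool.Agent.H97R3.VR

theorem pb : S_PB := by
  intro G M _ _ φ H hinj hvr
  obtain ⟨K, hK, hHK, ρ, hρ⟩ := hvr
  have hle : H ≤ K.comap φ := fun h hh => hHK ⟨h, hh, rfl⟩
  -- the inverse of `φ` on the image of `H`
  let φH : H →* H.map φ :=
    { toFun := fun h => ⟨φ (h : G), ⟨(h : G), h.2, rfl⟩⟩
      map_one' := Subtype.ext (map_one φ)
      map_mul' := fun a b => Subtype.ext (map_mul φ (a : G) (b : G)) }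
  have hbij : Function.Bijective φH := by
    constructor
    · rw [injective_iff_map_eq_one]
      intro a ha
      have h1 : φ (a : G) = 1 := congrArg Subtype.val ha
      exact Subtype.ext (hinj a a.2 h1)
    · rintro ⟨y, x, hx, rfl⟩
      exact ⟨⟨x, hx⟩, rfl⟩
  let ψ : H ≃* H.map φ := MulEquiv.ofBijective φH hbij
  refine ⟨K.comap φ, ?_, hle, ?_, ?_⟩
  · constructor
    rw [Subgroup.index_comap]
    exact Subgroup.FiniteIndex.index_ne_zero (H := K.subgroupOf φ.range)
  · exact (ψ.symm : H.map φ →* H).comp (ρ.comp (φ.subgroupComap K))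
  · intro h
    show ψ.symm (ρ (φ.subgroupComap K ⟨h, hle h.2⟩)) = h
    rw [MulEquiv.symm_apply_eq]
    have := hρ (φH h)
    exact this

end Q224.LR2
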