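import Pool.Agent.Q32.LR2.Stm

/-!
# Project LR2: sets with finite coboundary in a Cayley graph are almost invariant
-/

set_option autoImplicit false

namespace Q224.LR2

open Q32.LR2 Pool.Agent.TH97.VR

theorem sh : S_SH := by
  intro CO Γ _ S hS U hU g
  have hg : g ∈ Subgroup.closure S := by rw [hS]; exact Subgroup.mem_top g
  induction hg using Subgroup.closure_induction with
  | mem s hs =>
    by_cases h1 : s = 1
    · subst h1
      refine Set.Finite.subset Set.finite_empty ?_
      intro x hx
      exact hx (by rw [mul_one])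
    have hadj : ∀ x : Γ, (Cay S).Adj x (x * s) := by
      intro x
      refine ⟨?_, Or.inl ?_⟩
      · intro h
        exact h1 (mul_eq_left.1 h.symm)
      · rw [inv_mul_cancel_left]
        exact hs
    refine Set.Finite.subset ((hU.image Prod.fst).union
      (((CO Γ (Cay S)).1 U hU).1.image Prod.fst)) ?_
    intro x hx
    by_cases hxU : x ∈ U
    · left
      refine ⟨(x, x * s), ⟨hadj x, hxU, fun h => hx ⟨fun _ => h, fun _ => hxU⟩⟩, rfl⟩
    · right
      refine ⟨(x, x * s), ⟨hadj x, hxU, fun h => hx ⟨fun h2 => absurd h2 hxU, fun h2 => absurd h2 h⟩⟩,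
        rfl⟩
  | one =>
    refine Set.Finite.subset Set.finite_empty ?_
    intro x hx
    exact hx (by rw [mul_one])
  | mul a b _ _ iha ihb =>
    refine Set.Finite.subset (iha.union (ihb.preimage (f := fun x => x * a)
      (mul_left_injective a).injOn)) ?_
    intro x hx
    by_contra hc
    rw [Set.mem_union, not_or] at hc
    obtain ⟨h1, h2⟩ := hc
    rw [Set.mem_ofPred_eq, not_not] at h1
    rw [Set.mem_preimage, Set.mem_ofPred_eq, not_not] at h2
    apply hx
    rw [h1, ← mul_assoc]
    exact h2
  | inv a _ iha =>
    refine Set.Finite.subset (iha.preimage (f := fun x => x * a⁻¹)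
      (mul_left_injective a⁻¹).injOn) ?_
    intro x hx
    rw [Set.mem_preimage, Set.mem_ofPred_eq]
    intro h
    apply hx
    rw [inv_mul_cancel_right] at h
    exact h.symm

end Q224.LR2
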